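import Pool.Agent.Lib.SE.CC.Defs
import Pool.Agent.Lib.SE.J.Def2

/-!
# PROJECT TATE: interface (helper64)

The Tate conjecture for products of new parts of Jacobians of very general cyclic covers, balanced
signatures. Packages: `FP` (fixed part theorem), `PA` (transport along paths), `GA` (fields, germs,
continuation), `FA` (the family of the new parts), assembly.
-/

set_option autoImplicit false

open Topology Metric

noncomputable section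

namespace TATE

open HC HC.CC SEJ

/-! ## 1. Classes -/

section cls

variable {V V' : Type} [NormedAddCommGroup V] [NormedSpace ℂ V] [NormedAddCommGroup V']
  [NormedSpace ℂ V']

/-- The classes: for `V = T.V` this is `Hlg T d`. -/
abbrev Cl (V : Type) [NormedAddCommGroup V] [NormedSpace ℂ V] (d : ℕ) : Type :=
  (V →ₗ[ℝ] ℂ) [⋀^Fin d]→ₗ[ℂ] ℂ

/-- `a ↦ a ∘ φ`. -/
def pl (φ : V →ₗ[ℝ] V') : (V' →ₗ[ℝ] ℂ) →ₗ[ℂ] (V →ₗ[ℝ] ℂ) where
  toFun a := a ∘ₗ φ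
  map_add' _ _ := rfl
  map_smul' _ _ := rfl

/-- The image of a class under a real linear map. -/
def psh {d : ℕ} (φ : V →ₗ[ℝ] V') (c : Cl V d) : Cl V' d := c.compLinearMap (pl φ)

/-- The multiplication by `i`. -/
def jm (V : Type) [NormedAddCommGroup V] [NormedSpace ℂ V] : V →ₗ[ℝ] V :=
  (Complex.I • (LinearMap.id : V →ₗ[ℂ] V)).restrictScalars ℝ

/-- The action of `X` on classes as a derivation (`lieAct`, `dact`). -/
def der {d : ℕ} (X : V →ₗ[ℝ] V) (c : Cl V d) (a : Fin d → (V →ₗ[ℝ] ℂ)) : ℂ :=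
  ∑ i, c (Function.update a i (a i ∘ₗ X))

/-- `J (φ_* c) = φ_* (J c)`. -/
def JC {d : ℕ} (φ : V →ₗ[ℝ] V') (c : Cl V d) : Prop :=
  ∀ a, der (jm V') (psh φ c) a = der (jm V) c fun i => a i ∘ₗ φ

end cls

/-! ## 2. Families over `ℂ \ F` and the theorem of the fixed part -/

/-- A family of polarised complex tori up to isogeny over `ℂ \ F`: tangent space `V` (fixed), rational
lattice `L z ⊂ V`, Riemann form `E z`; `τ z z'` is the flat transport from `z` to `z'`, `|z' - z| < r z`. -/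
structure Fml (V : Type) [NormedAddCommGroup V] [NormedSpace ℂ V] (F : Set ℂ) where
  L : ℂ → Set V
  E : ℂ → (V →ₗ[ℝ] V →ₗ[ℝ] ℝ)
  r : ℂ → ℝ
  τ : ℂ → ℂ → (V ≃ₗ[ℝ] V)
  cnt : ∀ z ∉ F, (L z).Countable
  spn : ∀ z ∉ F, Submodule.span ℝ (L z) = ⊤
  alt : ∀ z ∉ F, ∀ u v, E z u v = -E z v u
  cpx : ∀ z ∉ F, ∀ u v, E z (Complex.I • u) (Complex.I • v) = E z u v
  pos : ∀ z ∉ F, ∀ v, v ≠ 0 → 0 < E z (Complex.I • v) v
  rpos : ∀ z ∉ F, 0 < r z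
  dom : ∀ z ∉ F, ∀ z' ∈ ball z (r z), z' ∉ F
  one : ∀ z ∉ F, ∀ v, τ z z v = v
  lat : ∀ z ∉ F, ∀ z' ∈ ball z (r z), τ z z' '' L z = L z'
  iso : ∀ z ∉ F, ∀ z' ∈ ball z (r z), ∀ u v, E z' (τ z z' u) (τ z z' v) = E z u v
  hol : ∀ z ∉ F, ∀ v, DifferentiableOn ℂ (fun z' => τ z z' v) (ball z (r z))

section fml

variable {V : Type} [NormedAddCommGroup V] [NormedSpace ℂ V] {F : Set ℂ}

/-- `O z` is a finite set of classes for every `z`, locally constant. -/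
structure IsFF (M : Fml V F) {d : ℕ} (O : ℂ → Set (Cl V d)) : Prop where
  fin : ∀ z ∉ F, (O z).Finite
  flat : ∀ z ∉ F, ∀ z' ∈ ball z (M.r z), O z' = psh (M.τ z z' : V →ₗ[ℝ] V) '' O z

end fml

/-- **FP**: THE THEOREM OF THE FIXED PART over `ℂ \ F`. -/
def StmtFP : Prop :=
  ∀ (V : Type) [NormedAddCommGroup V] [NormedSpace ℂ V] [FiniteDimensional ℂ V] (F : Set ℂ),
    F.Finite → ∀ (M : Fml V F) (d : ℕ) (O : ℂ → Set (Cl V d)), IsFF M O →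
    ∀ z ∉ F, ∀ z' ∈ ball z (M.r z), ∀ c ∈ O z, JC (M.τ z z' : V →ₗ[ℝ] V) c

/-! ## 3. Paths -/

/-- `γ` is a path from `z` to `z'` outside `F`. -/
structure IsPth (F : Set ℂ) (γ : ℝ → ℂ) (z z' : ℂ) : Prop where
  cont : Continuous γ
  src : γ 0 = z
  tgt : γ 1 = z'
  mem : ∀ t ∈ Set.Icc (0 : ℝ) 1, γ t ∉ F

section pth

variable {V : Type} [NormedAddCommGroup V] [NormedSpace ℂ V] {F : Set ℂ}

/-- `φ t` is the flat transport along `γ` from `γ 0` to `γ t`. -/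
structure IsTr (M : Fml V F) (γ : ℝ → ℂ) (φ : ℝ → (V ≃ₗ[ℝ] V)) : Prop where
  zero : ∀ v, φ 0 v = v
  loc : ∀ t ∈ Set.Icc (0 : ℝ) 1, ∃ ε > 0, ∀ t' ∈ Set.Icc (0 : ℝ) 1, |t' - t| < ε →
    γ t' ∈ ball (γ t) (M.r (γ t)) ∧ ∀ v, φ t' v = M.τ (γ t) (γ t') (φ t v)

end pth

/-- **PA1**: TRANSPORT along a path exists and is unique; it respects lattices and forms. -/
def StmtPA1 : Prop :=
  ∀ (V : Type) [NormedAddCommGroup V] [NormedSpace ℂ V] [FiniteDimensional ℂ V] (F : Set ℂ),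
    F.Finite → ∀ (M : Fml V F) (γ : ℝ → ℂ) (z z' : ℂ), IsPth F γ z z' →
    (∃ φ, IsTr M γ φ) ∧ (∀ φ φ', IsTr M γ φ → IsTr M γ φ' → ∀ t ∈ Set.Icc (0 : ℝ) 1, ∀ v,
      φ t v = φ' t v) ∧ ∀ φ, IsTr M γ φ → ∀ t ∈ Set.Icc (0 : ℝ) 1, φ t '' M.L z = M.L (γ t)

/-- **PA2**: AVOIDING A COUNTABLE SET without changing the transport. -/
def StmtPA2 : Prop :=
  ∀ (V : Type) [NormedAddCommGroup V] [NormedSpace ℂ V] [FiniteDimensional ℂ V] (F : Set ℂ),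
    F.Finite → ∀ (M : Fml V F) (D : Set ℂ), D.Countable → ∀ (γ : ℝ → ℂ) (z z' : ℂ),
    IsPth F γ z z' → z ∉ D → z' ∉ D → ∀ φ, IsTr M γ φ →
    ∃ γ' φ', IsPth (F ∪ D) γ' z z' ∧ IsTr M γ' φ' ∧ ∀ v, φ' 1 v = φ 1 v

/-- **PA3**: FINITE ORBITS. If the transports of `c` along the loops at `z` outside `F ∪ D` (`D` countable)
are finitely many classes, `c` belongs to a finite flat family. -/
def StmtPA3 : Prop :=
  ∀ (V : Type) [NormedAddCommGroup V] [NormedSpace ℂ V] [FiniteDimensional ℂ V] (F : Set ℂ),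
    F.Finite → ∀ (M : Fml V F) (D : Set ℂ), D.Countable → ∀ z, z ∉ F → z ∉ D →
    ∀ (d : ℕ) (c : Cl V d),
    {c' | ∃ γ φ, IsPth (F ∪ D) γ z z ∧ IsTr M γ φ ∧ c' = psh (φ 1 : V →ₗ[ℝ] V) c}.Finite →
    ∃ O, IsFF M O ∧ c ∈ O z

/-- **PA4**: FLATNESS ALONG PATHS. From `StmtFP`: `J` commutes with the transport of `c` along every path. -/
def StmtPA4 : Prop :=
  StmtFP → ∀ (V : Type) [NormedAddCommGroup V] [NormedSpace ℂ V] [FiniteDimensional ℂ V]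
    (F : Set ℂ), F.Finite → ∀ (M : Fml V F) (d : ℕ) (O : ℂ → Set (Cl V d)), IsFF M O →
    ∀ (γ : ℝ → ℂ) (z z' : ℂ), IsPth F γ z z' → ∀ φ, IsTr M γ φ → ∀ c ∈ O z,
    psh (φ 1 : V →ₗ[ℝ] V) c ∈ O z' ∧ JC (φ 1 : V →ₗ[ℝ] V) c

/-- First `γ`, then `γ'` backwards. -/
def cat {X : Type} (γ γ' : ℝ → X) (t : ℝ) : X := if t ≤ 1 / 2 then γ (2 * t) else γ' (2 - 2 * t)

/-- **PA5**: the transport along `γ` followed by the inverse of `γ'`. -/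
def StmtPA5 : Prop :=
  ∀ (V : Type) [NormedAddCommGroup V] [NormedSpace ℂ V] [FiniteDimensional ℂ V] (F : Set ℂ),
    F.Finite → ∀ (M : Fml V F) (γ γ' : ℝ → ℂ) (z z' : ℂ), IsPth F γ z z' → IsPth F γ' z z' →
    ∀ φ φ' ψ, IsTr M γ φ → IsTr M γ' φ' → IsTr M (cat γ γ') ψ →
      IsPth F (cat γ γ') z z ∧ ∀ v, φ' 1 (ψ 1 v) = φ 1 v

/-! ## 4. Fields, germs, continuation -/

/-- `a` is algebraic over `ℚ(s_1, …, s_p)`. -/
def AlgO {p : ℕ} (s : Fin p → ℂ) (a : ℂ) : Prop :=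
  IsAlgebraic (IntermediateField.adjoin ℚ (Set.range s)) a

/-- The automorphisms of `ℂ` which fix `s` and `A`. -/
def Fix {p : ℕ} (s : Fin p → ℂ) (A : Set ℂ) : Set (ℂ ≃+* ℂ) :=
  {σ | (∀ i, σ (s i) = s i) ∧ ∀ a ∈ A, σ a = a}

/-- **GA1**: COUNTABLE STABLE SETS consist of algebraic points. -/
def StmtGA1 : Prop :=
  ∀ (p k : ℕ) (s : Fin p → ℂ) (A : Set ℂ), A.Finite → (∀ a ∈ A, AlgO s a) →
    ∀ S : Set (Fin k → ℂ), S.Countable → (∀ σ ∈ Fix s A, ∀ z ∈ S, (fun i => σ (z i)) ∈ S) →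
    ∀ z ∈ S, ∀ i, AlgO s (z i)

/-- A germ of `k` functions of `p` variables: an open set and functions on it. -/
structure Grm (p k : ℕ) where
  W : Set (Fin p → ℂ)
  Y : (Fin p → ℂ) → (Fin k → ℂ)
  op : IsOpen W
  hol : DifferentiableOn ℂ Y W

/-- All polynomial relations with rational coefficients between `s`, `y` hold between `s'`, `y'`. -/
def Spc {p k : ℕ} (s : Fin p → ℂ) (y : Fin k → ℂ) (s' : Fin p → ℂ) (y' : Fin k → ℂ) : Prop :=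
  ∀ f : MvPolynomial (Fin p ⊕ Fin k) ℚ, MvPolynomial.aeval (Sum.elim s y) f = 0 →
    MvPolynomial.aeval (Sum.elim s' y') f = 0

/-- The point `s + z w` of the line. -/
def ln {p : ℕ} (s w : Fin p → ℂ) (z : ℂ) : Fin p → ℂ := fun i => s i + z * w i

/-- `y` is the continuation of the point `(s, y 0)` along the path `s + γ(t) w`: locally `y t = η (γ t)`, `η`
holomorphic, and all relations persist. -/
structure IsCt {p k : ℕ} (s w : Fin p → ℂ) (γ : ℝ → ℂ) (y : ℝ → (Fin k → ℂ)) : Prop where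
  loc : ∀ t ∈ Set.Icc (0 : ℝ) 1, ∃ ε > 0, ∃ δ > 0, ∃ η : ℂ → (Fin k → ℂ),
    DifferentiableOn ℂ η (ball (γ t) ε) ∧
    (∀ z ∈ ball (γ t) ε, Spc s (y 0) (ln s w z) (η z)) ∧
    ∀ t' ∈ Set.Icc (0 : ℝ) 1, |t' - t| < δ → γ t' ∈ ball (γ t) ε ∧ y t' = η (γ t')

/-- **GA2**: GERMS AND CONTINUATION. There are countably many germs such that: for `s` algebraically
independent, `y` algebraic over `ℚ(s)` and every direction `w`: a germ `(W, Y)` at `s` with `Y s = y` and a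
countable set `D`, `0 ∉ D`, such that outside `D` germs are determined by their value and `y` can be continued along every path from `0` which avoids `D`; near
`t = 0` the continuation is given by `Y`; for a loop the end value is `σ y`, `σ ∈ Aut(ℂ/ℚ(s))`. -/
def StmtGA2 : Prop :=
  ∀ p k : ℕ, ∃ G : Set (Grm p k), G.Countable ∧
    ∀ (s : Fin p → ℂ), AlgebraicIndependent ℚ s → ∀ y : Fin k → ℂ, (∀ i, AlgO s (y i)) →
    ∃ g ∈ G, s ∈ g.W ∧ g.Y s = y ∧ (∀ s' ∈ g.W, Spc s y s' (g.Y s')) ∧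
    ∀ w : Fin p → ℂ, ∃ D : Set ℂ, D.Countable ∧ 0 ∉ D ∧
      (∀ z₀ ∉ D, ∀ η η' : ℂ → (Fin k → ℂ), (∀ᶠ z in 𝓝 z₀, ContinuousAt η z ∧
        ContinuousAt η' z ∧ Spc s y (ln s w z) (η z) ∧ Spc s y (ln s w z) (η' z)) →
        η z₀ = η' z₀ → ∀ᶠ z in 𝓝 z₀, η z = η' z) ∧
      ∀ (γ : ℝ → ℂ) (z : ℂ), IsPth D γ 0 z → ∃ y' : ℝ → (Fin k → ℂ), y' 0 = y ∧ IsCt s w γ y' ∧
        (∃ ε > 0, ∀ t ∈ Set.Icc (0 : ℝ) 1, t < ε → ln s w (γ t) ∈ g.W ∧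
          y' t = g.Y (ln s w (γ t))) ∧
        (z = 0 → ∃ σ ∈ Fix s ∅, ∀ i, y' 1 i = σ (y i))

/-- **GA5**: THE GROUPOID of continuations: `e γ` is the end value of the continuation of `y` along the loop
`γ`; if `e γ = e γ'`, the continuation along `γ` followed by the inverse of `γ'` has the end value `y`. -/
def StmtGA5 : Prop :=
  ∀ (p k : ℕ) (s : Fin p → ℂ), AlgebraicIndependent ℚ s → ∀ y : Fin k → ℂ, (∀ i, AlgO s (y i)) →
    ∀ w : Fin p → ℂ, ∃ D : Set ℂ, D.Countable ∧ 0 ∉ D ∧ ∃ e : (ℝ → ℂ) → (Fin k → ℂ),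
      (∀ γ, IsPth D γ 0 0 → ∀ y' : ℝ → (Fin k → ℂ), IsCt s w γ y' → y' 0 = y → y' 1 = e γ) ∧
      ∀ γ γ', IsPth D γ 0 0 → IsPth D γ' 0 0 → e γ = e γ' → e (cat γ γ') = y

/-- **GA3**: BAIRE. `C n` relatively closed in the open set `W n`: for `s` outside a meagre set, `s ∈ C n` implies
that `C n` is a neighbourhood of `s`. -/
def StmtGA3 : Prop :=
  ∀ (p : ℕ) (W C : ℕ → Set (Fin p → ℂ)), (∀ n, IsOpen (W n)) →
    (∀ n, ∃ K, IsClosed K ∧ C n = W n ∩ K) →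
    IsMeagre {s | ∃ n, s ∈ C n ∧ C n ∉ 𝓝 s}

/-- **GA4**: algebraically independent points. -/
def StmtGA4 : Prop := ∀ p : ℕ, IsMeagre {s : Fin p → ℂ | ¬ AlgebraicIndependent ℚ s}

/-! ## 5. The family of the new parts -/

section fam

variable {m r : ℕ}

/-- The conditions on the exponents. -/
def Cvb (m : ℕ) (b : Fin (r + 1) → ℕ) : Prop :=
  3 ≤ m ∧ (∀ j, ¬ m ∣ b j) ∧ (¬ m ∣ ∑ j, b j) ∧ ∀ d, d ∣ m → (∀ j, d ∣ b j) → d = 1

/-- Balanced signature: for every character `u` half of the `r` forms are of the first kind. -/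
def Bal (m : ℕ) (b : Fin (r + 1) → ℕ) : Prop :=
  ∀ u < m, u.Coprime m →
    2 * (Finset.univ.filter fun i : Fin r => m * i.1 + ∑ j, (u * b j) % m < m * r).card = r

/-- The points of the curve. -/
def Pts (m : ℕ) (b : Fin (r + 1) → ℕ) (t : Fin (r + 1) → ℂ) : Set (ℂ × ℂ) :=
  {P | P.1 ∉ Set.range t ∧ P.2 ^ m = ∏ j, (P.1 - t j) ^ b j}

/-- The forms `x ^ i y ^ u / ∏ (x - t_j) ^ (1 + [u b_j / m])`, coordinates of `V = Ix m b → ℂ`. -/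
def om (m : ℕ) (b : Fin (r + 1) → ℕ) (t : Fin (r + 1) → ℂ) (P : ℂ × ℂ) (p : Ix m b) : ℂ :=
  P.1 ^ ex p * P.2 ^ ch p / ∏ j, (P.1 - t j) ^ (1 + ch p * b j / m)

/-- `v` is the integral of `om` along a lift of the segment from `P.1` to `Q.1` to a path on the curve
from `P` to `Q`. -/
def Seg (m : ℕ) (b : Fin (r + 1) → ℕ) (t : Fin (r + 1) → ℂ) (P Q : ℂ × ℂ) (v : Ix m b → ℂ) :
    Prop :=
  ∃ y : ℝ → ℂ, Continuous y ∧ y 0 = P.2 ∧ y 1 = Q.2 ∧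
    (∀ u ∈ Set.Icc (0 : ℝ) 1, (P.1 + u * (Q.1 - P.1), y u) ∈ Pts m b t) ∧
    ∀ p, v p = ∫ u in (0 : ℝ)..1, (Q.1 - P.1) * om m b t (P.1 + u * (Q.1 - P.1), y u) p

/-- `v` is the integral along a polygonal path on the curve from `P` to `Q`. -/
inductive Itg (m : ℕ) (b : Fin (r + 1) → ℕ) (t : Fin (r + 1) → ℂ) :
    ℂ × ℂ → ℂ × ℂ → (Ix m b → ℂ) → Prop
  | refl (P : ℂ × ℂ) (h : P ∈ Pts m b t) : Itg m b t P P 0
  | step {P Q R : ℂ × ℂ} {v w : Ix m b → ℂ} (h : Itg m b t P Q v) (h' : Seg m b t Q R w) :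
      Itg m b t P R (v + w)

/-- The periods. -/
def LZ (m : ℕ) (b : Fin (r + 1) → ℕ) (t : Fin (r + 1) → ℂ) : Set (Ix m b → ℂ) :=
  {v | ∃ P, Itg m b t P P v}

/-- The rational period lattice. -/
def LQ (m : ℕ) (b : Fin (r + 1) → ℕ) (t : Fin (r + 1) → ℂ) : Set (Ix m b → ℂ) :=
  {v | ∃ k : ℕ, k ≠ 0 ∧ k • v ∈ LZ m b t}

/-- The automorphism `Z`. -/
def Zd (m : ℕ) (b : Fin (r + 1) → ℕ) : (Ix m b → ℂ) →ₗ[ℂ] (Ix m b → ℂ) where
  toFun v p := ze m (ch p) * v p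
  map_add' u v := by
    funext p
    exact mul_add _ _ _
  map_smul' c v := by
    funext p
    exact mul_left_comm _ _ _

/-- **FA1**: THE LOCAL SYSTEM of the new parts over the injective tuples `t`. -/
structure FamD (m : ℕ) (b : Fin (r + 1) → ℕ) where
  ρ : (Fin (r + 1) → ℂ) → ℝ
  τ : (Fin (r + 1) → ℂ) → (Fin (r + 1) → ℂ) → ((Ix m b → ℂ) ≃ₗ[ℝ] (Ix m b → ℂ))
  E : (Fin (r + 1) → ℂ) → ((Ix m b → ℂ) →ₗ[ℝ] (Ix m b → ℂ) →ₗ[ℝ] ℝ)
  cnt : ∀ t, Function.Injective t → (LQ m b t).Countable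
  spn : ∀ t, Function.Injective t → Submodule.span ℝ (LQ m b t) = ⊤
  add : ∀ t, Function.Injective t → ∀ u ∈ LQ m b t, ∀ v ∈ LQ m b t, u + v ∈ LQ m b t
  rat : ∀ t, Function.Injective t → ∀ u ∈ LQ m b t, ∀ v ∈ LQ m b t, ∃ x : ℚ, E t u v = x
  alt : ∀ t, Function.Injective t → ∀ u v, E t u v = -E t v u
  cpx : ∀ t, Function.Injective t → ∀ u v, E t (Complex.I • u) (Complex.I • v) = E t u v
  pos : ∀ t, Function.Injective t → ∀ v, v ≠ 0 → 0 < E t (Complex.I • v) v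
  inv : ∀ t, Function.Injective t → ∀ u v, E t (Zd m b u) (Zd m b v) = E t u v
  rpos : ∀ t, Function.Injective t → 0 < ρ t
  dom : ∀ t, Function.Injective t → ∀ t' ∈ ball t (ρ t), Function.Injective t'
  one : ∀ t, Function.Injective t → ∀ v, τ t t v = v
  latZ : ∀ t, Function.Injective t → ∀ t' ∈ ball t (ρ t), τ t t' '' LZ m b t = LZ m b t'
  iso : ∀ t, Function.Injective t → ∀ t' ∈ ball t (ρ t), ∀ u v,
    E t' (τ t t' u) (τ t t' v) = E t u v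
  com : ∀ t, Function.Injective t → ∀ t' ∈ ball t (ρ t), ∀ v,
    τ t t' (Zd m b v) = Zd m b (τ t t' v)
  hol : ∀ t, Function.Injective t → ∀ v, DifferentiableOn ℂ (fun t' => τ t t' v) (ball t (ρ t))

end fam

/-- **FA1**. -/
def StmtFA1 : Prop :=
  ∀ (m r : ℕ) (b : Fin (r + 1) → ℕ), Cvb m b → Nonempty (FamD m b)

/-- **FA2**: INTEGRALS on the curve. Any two points are connected; differences of values are
periods; the integrals depend holomorphically on parameters; the derivative with respect to the end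
point. -/
def StmtFA2 : Prop :=
  ∀ (m r : ℕ) (b : Fin (r + 1) → ℕ), Cvb m b →
    (∀ t, Function.Injective t → ∀ P ∈ Pts m b t, ∀ Q ∈ Pts m b t, ∃ v, Itg m b t P Q v) ∧
    (∀ t, Function.Injective t → ∀ P Q R v w, Itg m b t P Q v → Itg m b t Q R w →
      Itg m b t P R (v + w)) ∧
    (∀ t, Function.Injective t → ∀ P Q v, Itg m b t P Q v →
      P ∈ Pts m b t ∧ Q ∈ Pts m b t ∧ Itg m b t Q P (-v)) ∧
    (∀ t, Function.Injective t → ∀ P Q v, Itg m b t P Q v → ∀ w, Itg m b t P Q w →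
      v - w ∈ LZ m b t) ∧
    (∀ (e : ℕ) (U : Set (Fin e → ℂ)) (ξ₀ : Fin e → ℂ) (t : (Fin e → ℂ) → (Fin (r + 1) → ℂ))
      (P Q : (Fin e → ℂ) → ℂ × ℂ) (v₀ : Ix m b → ℂ), IsOpen U → ξ₀ ∈ U →
      DifferentiableOn ℂ t U → DifferentiableOn ℂ P U → DifferentiableOn ℂ Q U →
      (∀ ξ ∈ U, Function.Injective (t ξ) ∧ P ξ ∈ Pts m b (t ξ) ∧ Q ξ ∈ Pts m b (t ξ)) →
      Itg m b (t ξ₀) (P ξ₀) (Q ξ₀) v₀ →
      ∃ U' ⊆ U, IsOpen U' ∧ ξ₀ ∈ U' ∧ ∃ v : (Fin e → ℂ) → (Ix m b → ℂ),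
        DifferentiableOn ℂ v U' ∧ v ξ₀ = v₀ ∧ ∀ ξ ∈ U', Itg m b (t ξ) (P ξ) (Q ξ) (v ξ)) ∧
    ∀ t, Function.Injective t → ∀ P ∈ Pts m b t, ∀ (x₀ : ℂ) (η : ℂ → ℂ) (v : ℂ → (Ix m b → ℂ))
      (ε : ℝ), 0 < ε → ContinuousOn η (ball x₀ ε) → ContinuousOn v (ball x₀ ε) →
      (∀ x ∈ ball x₀ ε, (x, η x) ∈ Pts m b t ∧ Itg m b t P (x, η x) (v x)) →
      HasDerivAt v (om m b t (x₀, η x₀)) x₀

/-- The map of the curve in `IsNew`. -/
structure IsMp (T : AV) (m : ℕ) (Z : T.V → T.V) {r : ℕ} (t : Fin (r + 1) → ℂ)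
    (b : Fin (r + 1) → ℕ) (γ : Cur T) : Prop where
  P : ∀ x y, γ.P (x, y) = y ^ m - ∏ j, (x - t j) ^ b j
  S : γ.S = Set.range t
  equ : ∀ x ∉ γ.S, ∀ y, γ.P (x, y) = 0 →
    γ.ω x (Complex.exp (2 * Real.pi * Complex.I / m) * y) = Z (γ.ω x y)
  dif : ∀ u < m, u.Coprime m → ∀ i, m * i + ∑ j, (u * b j) % m < m * r →
    ∃ B : T.V → ℂ, IsLinearMap ℂ B ∧ ∀ x ∉ γ.S, ∀ y, γ.P (x, y) = 0 →
      B (γ.ω x y) = x ^ i * y ^ u / ∏ j, (x - t j) ^ (1 + u * b j / m)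

/-- **FA3**: THE LINK with `IsNew`. -/
def StmtFA3 : Prop :=
  ∀ (T : AV) (m r : ℕ) (Z : T.V → T.V) (t : Fin (r + 1) → ℂ) (b : Fin (r + 1) → ℕ) (γ : Cur T),
    Cvb m b → Function.Injective t → IsCy T m Z →
    2 * Module.finrank ℂ T.V = r * m.totient → IsMp T m Z t b γ →
    ∃ κ : T.V ≃ₗ[ℂ] (Ix m b → ℂ), (∀ v, κ (Z v) = Zd m b (κ v)) ∧
      (∀ x ∉ γ.S, ∀ y, γ.P (x, y) = 0 → κ (γ.ω x y) = om m b t (x, y)) ∧
      κ '' {v | Rt T v} = LQ m b t ∧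
      ∀ P Q v, Itg m b t P Q v → ∃ l, In T l ∧ κ (γ.α Q.1 Q.2 - γ.α P.1 P.2) - v = κ l

/-- **FA4**: EXISTENCE of the new part for all `t`. -/
def StmtFA4 : Prop :=
  ∀ (m r : ℕ) (b : Fin (r + 1) → ℕ) (t : Fin (r + 1) → ℂ), Cvb m b → 1 ≤ r →
    Function.Injective t → ∃ (T : AV) (Z : T.V → T.V), IsNew T m Z t b

/-- **FA5**: THE PERIOD MAP IS NOWHERE CONSTANT if a signature is `(p, r - p)`, `0 < p < r`. -/
def StmtFA5 : Prop :=
  ∀ (m r : ℕ) (b : Fin (r + 1) → ℕ) (Φ : FamD m b), Cvb m b →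
    (∃ u < m, u.Coprime m ∧
      0 < (Finset.univ.filter fun i : Fin r => m * i.1 + ∑ j, (u * b j) % m < m * r).card ∧
      (Finset.univ.filter fun i : Fin r => m * i.1 + ∑ j, (u * b j) % m < m * r).card < r) →
    ∀ t, Function.Injective t → ∀ ε > 0, ∃ t' ∈ ball t ε ∩ ball t (Φ.ρ t), ∃ v,
      Φ.τ t t' (Complex.I • v) ≠ Complex.I • Φ.τ t t' v

end TATE
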