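import Pool.Agent.Lib.TATE.FP.T
import Pool.Agent.Lib.TATE.PA.Main
import Pool.Agent.Lib.TATE.GA.Main
import Pool.Agent.Lib.TATE.FA.All
import Pool.Agent.Lib.TATE.FA.Ex
import Pool.Agent.Lib.TATE.TO.All
import Pool.Agent.Lib.TATE.FL.FL
import Pool.Agent.Lib.TATE.MG.All
import Pool.Agent.Lib.TATE.Asm.Dr
import Pool.Agent.Lib.TATE.Asm.Rq
import Pool.Agent.Lib.TATE.Asm.Jrt
import Pool.Agent.Lib.TATE.Asm.Lsa
import Pool.Agent.Lib.TATE.Asm.Rep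
import Pool.Agent.Lib.TATE.Asm.Rp
import Pool.Agent.Lib.TATE.Asm.Ht
import Pool.Agent.Lib.TATE.Asm.Ht2
import Pool.Agent.Lib.TATE.Asm.Coc
import Pool.Agent.Lib.TATE.Asm.Ni
import Pool.Agent.Lib.TATE.Asm.Ku
import Pool.Agent.Lib.TATE.Asm.Av
import Pool.Agent.Lib.TATE.Asm.Gc1
import Pool.Agent.Lib.TATE.Asm.Gc2
import Pool.Agent.Lib.TATE.Asm.Gc3
import Pool.Agent.Lib.TATE.Asm.Jc
import Pool.Agent.Lib.TATE.Asm.Ls
import Pool.Agent.Lib.TATE.Asm.Pk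
import Pool.Agent.Lib.TATE.Asm.Pg
import Pool.Agent.Lib.TATE.Asm.Cmp
import Pool.Agent.Lib.TATE.Asm.Mg
import Pool.Agent.Lib.TATE.Asm.Fo
import Pool.Agent.Lib.TATE.Asm.Rc
import Pool.Agent.Lib.TATE.Asm.Cc
import Pool.Agent.Lib.TATE.Asm.Main
import Pool.Agent.Lib.SE.CC.Fin

/-!
# PROJECT TATE: all modules, the theorem (helper64)
-/

set_option autoImplicit false

noncomputable section

namespace TATE

theorem aTO : StmtTO := TO.tTO GA.cGA1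

theorem aMG : StmtMG := MG.cMG tFA2

theorem aLsa : S_Lsa := tLsa tDr tRq tJrt

theorem aHt2 : S_Ht2 := tHt2 tHt

theorem aNi : S_Ni := tNi tFA1 tFA3 tFA5 tCoc

theorem aAv : S_Av := tAv tFA3 tFA4

theorem aGc1 : S_Gc1 := tGc1 tRq aAv

theorem aGc2 : S_Gc2 := tGc2 tRq aAv tFP PA.cPA1 PA.cPA3 PA.cPA4

theorem aGc3 : S_Gc3 := tGc3 tFP PA.cPA1 PA.cPA4 tFL

theorem aLs : S_Ls := tLs aLsa tRep tRp aHt2 aNi tKu aAv aGc1 aGc2 aGc3 tJc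

theorem aPk : S_Pk := tPk tFA3

theorem aRc : S_Rc := tRc aTO

theorem aMg : S_Mg := tMg aMG aTO GA.cGA5 PA.cPA1 tCmp

theorem aFo : S_Fo := tFo aMg tCmp PA.cPA1 PA.cPA3 PA.cPA5

/-- **THE THEOREM.** -/
theorem main : Main := main_of tFA1 tFL aPk tPg aRc aFo aLs tCc aAv HC.CC.main

end TATE
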