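import Pool.Agent.Lib.TATE.Stmt

/-!
# PROJECT TATE: interface, second part (helper64)

`TO` (helper59), `MG` (helper7), `FL`; the assembly.
-/

set_option autoImplicit false

open Topology Metric

noncomputable section

namespace TATE

open HC HC.CC SEJ

/-! ## 6. Torsion points and monodromy -/

/-- **TO**: TORSION POINTS are exact sums of integrals between algebraic points. From GA1. -/
def StmtTO : Prop :=
  ∀ (T : AV) (m r : ℕ) (Z : T.V → T.V) (t : Fin (r + 1) → ℂ) (b : Fin (r + 1) → ℕ) (γ : Cur T),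
    Cvb m b → Function.Injective t → IsCy T m Z →
    2 * Module.finrank ℂ T.V = r * m.totient → IsMp T m Z t b γ →
    ∀ κ : T.V ≃ₗ[ℂ] (Ix m b → ℂ),
      (∀ x ∉ γ.S, ∀ y, γ.P (x, y) = 0 → κ (γ.ω x y) = om m b t (x, y)) →
      κ '' {v | Rt T v} = LQ m b t →
      (∀ P Q v, Itg m b t P Q v → ∃ l, In T l ∧ κ (γ.α Q.1 Q.2 - γ.α P.1 P.2) - v = κ l) →
    ∀ (p : ℕ) (s : Fin p → ℂ) (A : Set ℂ), A.Finite → (∀ a ∈ A, AlgO s a) →
      (∀ j, t j ∈ IntermediateField.adjoin ℚ (Set.range s)) → IsMod s γ A → ∀ v, Rt T v →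
      ∃ (N : ℕ) (Q' Q : Fin N → ℂ × ℂ) (w : Fin N → (Ix m b → ℂ)),
        (∀ a, AlgO s (Q' a).1 ∧ AlgO s (Q' a).2 ∧ AlgO s (Q a).1 ∧ AlgO s (Q a).2) ∧
        (∀ a, Itg m b t (Q' a) (Q a) (w a)) ∧ ∑ a, w a = κ v

/-- The discrete data of a product of `N` new parts. -/
structure Dt (p N : ℕ) where
  m : Fin N → ℕ
  r : Fin N → ℕ
  i : ∀ n, Fin (r n + 1) → Fin p
  k : Fin N → Option (Fin p)
  b : ∀ n, Fin (r n + 1) → ℕ

section dt

variable {p N : ℕ}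

/-- The branch points of the factor `n`. -/
def Dt.t (D : Dt p N) (s : Fin p → ℂ) (n : Fin N) : Fin (D.r n + 1) → ℂ := pt s (D.i n) (D.k n)

/-- The tangent space. -/
abbrev Dt.V (D : Dt p N) : Type := ∀ n, Ix (D.m n) (D.b n) → ℂ

/-- The rational lattice. -/
def Dt.L (D : Dt p N) (s : Fin p → ℂ) : Set D.V := {v | ∀ n, v n ∈ LQ (D.m n) (D.b n) (D.t s n)}

/-- The conditions. -/
structure Dt.ok (D : Dt p N) : Prop where
  inj : ∀ n, Function.Injective (D.i n)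
  lt : ∀ n l, D.k n = some l → ∀ j, D.i n j < l
  cv : ∀ n, Cvb (D.m n) (D.b n)
  r3 : ∀ n, 3 ≤ D.r n
  ndf : ∀ n, Ndf (D.m n) (D.b n)

/-- A choice of the local systems. -/
abbrev FF : Type := ∀ (m r : ℕ) (b : Fin (r + 1) → ℕ), Cvb m b → FamD m b

/-- The bad points of the line. -/
def Bd (s w : Fin p → ℂ) : Set ℂ := {z | ¬ Function.Injective (ln s w z)}

/-- `M` is the product family on the line `s + z w`. -/
structure IsLn (Φ : FF) (D : Dt p N) (h : D.ok) (s w : Fin p → ℂ) (M : Fml D.V (Bd s w)) :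
    Prop where
  L : ∀ z ∉ Bd s w, M.L z = D.L (ln s w z)
  r : ∀ z ∉ Bd s w, ∀ z' ∈ ball z (M.r z), ∀ n,
    D.t (ln s w z') n ∈ ball (D.t (ln s w z) n) ((Φ _ _ _ (h.cv n)).ρ (D.t (ln s w z) n))
  τ : ∀ z ∉ Bd s w, ∀ z' ∈ ball z (M.r z), ∀ v n,
    M.τ z z' v n = (Φ _ _ _ (h.cv n)).τ (D.t (ln s w z) n) (D.t (ln s w z') n) (v n)

/-- **FL**: THE FAMILY ON A LINE exists. -/
def StmtFL : Prop :=
  ∀ (Φ : FF) (p N : ℕ) (D : Dt p N) (h : D.ok) (s w : Fin p → ℂ), Function.Injective s →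
    (Bd s w).Finite ∧ ∃ M : Fml D.V (Bd s w), IsLn Φ D h s w M

/-- **MG**: MONODROMY AND GALOIS GROUP. For `s` outside a meagre set, `y` algebraic over `ℚ(s)`, every
direction `w`: for a loop which avoids a countable set there are a continuation `y'` of `y` and
`σ ∈ Aut(ℂ/ℚ(s))` with `y' 1 = σ y` such that: if a rational vector `v` is the sum of integrals between
points with coordinates in `y`, its transport is the sum of integrals between the conjugate points.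
From FA2, GA2, GA3, GA4. -/
def StmtMG : Prop :=
  ∀ (Φ : FF) (p N : ℕ) (D : Dt p N) (h : D.ok), ∃ X : Set (Fin p → ℂ), IsMeagre X ∧ ∀ s ∉ X,
    Function.Injective s ∧ AlgebraicIndependent ℚ s ∧
    ∀ (K : ℕ) (y : Fin K → ℂ), (∀ i, AlgO s (y i)) → ∀ (w : Fin p → ℂ) (M : Fml D.V (Bd s w)),
    IsLn Φ D h s w M → ∃ D₀ : Set ℂ, D₀.Countable ∧ 0 ∉ D₀ ∧
    ∀ γ, IsPth (Bd s w ∪ D₀) γ 0 0 → ∀ φ, IsTr M γ φ →
    ∃ (y' : ℝ → (Fin K → ℂ)) (σ : ℂ ≃+* ℂ), y' 0 = y ∧ IsCt s w γ y' ∧ σ ∈ Fix s ∅ ∧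
      (∀ i, y' 1 i = σ (y i)) ∧
      ∀ (n : Fin N) (k : ℕ) (Q' Q : Fin k → Fin K × Fin K)
        (u : Fin k → (Ix (D.m n) (D.b n) → ℂ)) (v : D.V),
        (∀ a, Itg (D.m n) (D.b n) (D.t s n) (y (Q' a).1, y (Q' a).2) (y (Q a).1, y (Q a).2)
          (u a)) → v ∈ D.L s → ∑ a, u a = v n →
        ∃ u' : Fin k → (Ix (D.m n) (D.b n) → ℂ),
          (∀ a, Itg (D.m n) (D.b n) (D.t s n) (σ (y (Q' a).1), σ (y (Q' a).2))
            (σ (y (Q a).1), σ (y (Q a).2)) (u' a)) ∧ ∑ a, u' a = φ 1 v n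

end dt

end TATE
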