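import Pool.Agent.Lib.TATE.Iface
import Mathlib.NumberTheory.Padics.PadicIntegers

/-!
# PROJECT TATE: the statement (helper64)

`T = V / L` an abelian variety (SE/CC/Defs.lean). `H1 T ℓ = Hom(L, ℚ_ℓ) = H¹(T, ℚ_ℓ)`,
`HL T ℓ d = Λ^d V_ℓ(T) = H_d(T, ℚ_ℓ)`. The Galois action on the points of `V / L` is given by the points
of the curve.
-/

set_option autoImplicit false

open Topology

noncomputable section

namespace TATE

open HC HC.CC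

/-- `H¹(T, ℚ_ℓ)`. -/
abbrev H1 (T : AV) (ℓ : ℕ) [Fact ℓ.Prime] : Type := T.L →+ ℚ_[ℓ]

/-- `H_d(T, ℚ_ℓ)`, the exterior power `Λ^d V_ℓ(T)`: alternating forms on `H¹(T, ℚ_ℓ)`. -/
abbrev HL (T : AV) (ℓ : ℕ) [Fact ℓ.Prime] (d : ℕ) : Type := (H1 T ℓ) [⋀^Fin d]→ₗ[ℚ_[ℓ]] ℚ_[ℓ]

/-- The automorphism `σ` of `ℂ` maps the point `v` of `V / L` to `v'`: `v` is the image
`∑ e_k γ(x_k, y_k)` of a divisor of degree `0` of the curve, `v'` is the image of its conjugate. -/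
def GR {T : AV} (γ : Cur T) (σ : ℂ ≃+* ℂ) (v v' : T.V) : Prop :=
  ∃ (n : ℕ) (e : Fin n → ℤ) (x y : Fin n → ℂ), ∑ k, e k = 0 ∧
    (∀ k, x k ∉ γ.S ∧ γ.P (x k, y k) = 0 ∧ σ (x k) ∉ γ.S ∧ γ.P (σ (x k), σ (y k)) = 0) ∧
    In T (v - ∑ k, e k • γ.α (x k) (y k)) ∧ In T (v' - ∑ k, e k • γ.α (σ (x k)) (σ (y k)))

/-- `V / L` and the map of the curve are defined over `ℚ(s, A)`: the automorphisms which fix `s` and
`A` act on `V / L`. -/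
def IsMod {p : ℕ} (s : Fin p → ℂ) {T : AV} (γ : Cur T) (A : Set ℂ) : Prop :=
  ∀ σ ∈ Fix s A, ∀ v v', GR γ σ v v' → In T v → In T v'

/-- `f' = f ∘ σ` for the action of `σ` on the torsion points of `V / L`, `f` with values in `ℤ_ℓ`:
`f'(v) = f(v')` modulo `ℓ ^ n` if `σ` maps `v / ℓ ^ n` to `v' / ℓ ^ n`. -/
def IsAct {T : AV} (γ : Cur T) (σ : ℂ ≃+* ℂ) (ℓ : ℕ) [Fact ℓ.Prime] (f f' : H1 T ℓ) : Prop :=
  (∀ v, ‖f v‖ ≤ 1) ∧ ∀ (n : ℕ) (v v' : T.L),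
    GR γ σ (mu ((ℓ : ℂ) ^ n)⁻¹ (v : T.V)) (mu ((ℓ : ℂ) ^ n)⁻¹ (v' : T.V)) →
    ‖f' v - f v'‖ ≤ ((ℓ : ℝ) ^ n)⁻¹

/-- `χ` is the value of the cyclotomic character at `σ`. -/
def IsCh (σ : ℂ ≃+* ℂ) (ℓ : ℕ) [Fact ℓ.Prime] (χ : ℤ_[ℓ]) : Prop :=
  ∀ n k : ℕ, ‖χ - k‖ ≤ ((ℓ : ℝ) ^ n)⁻¹ → ∀ ξ : ℂ, ξ ^ ℓ ^ n = 1 → σ ξ = ξ ^ k

/-- `F` is the pull back of `f` under the rational map `g`. -/
def IsPb {T J : AV} (g : T.V → J.V) {ℓ : ℕ} [Fact ℓ.Prime] (f : H1 J ℓ) (F : H1 T ℓ) : Prop :=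
  ∀ (k : ℕ) (v : T.L) (w : J.L), (w : J.V) = k • g v → k * F v = f w

/-- `g` is an isogeny from `T` to `∏_n J_n`, up to an integer. -/
structure IsPr {T : AV} {N : ℕ} {J : Fin N → AV} (g : ∀ n, T.V → (J n).V) : Prop where
  lin : ∀ n, IsC (g n)
  bij : Function.Bijective fun v n => g n v
  rat : ∀ v, Rt T v → ∀ n, Rt (J n) (g n v)

/-- `c` is a Tate class in `H_{2i}(T, ℚ_ℓ)(-i)`: an open subgroup of the Galois group of the algebraic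
closure of `ℚ(s)` (the automorphisms which fix `s` and a finite set `A` of numbers algebraic over
`ℚ(s)`) fixes `c`. The values of `c` on the pull backs of forms on the `J_n` determine `c`. -/
def IsTate {p : ℕ} (s : Fin p → ℂ) {T : AV} {N : ℕ} {J : Fin N → AV} (γ : ∀ n, Cur (J n))
    (g : ∀ n, T.V → (J n).V) (ℓ : ℕ) [Fact ℓ.Prime] (i : ℕ) (c : HL T ℓ (2 * i)) : Prop :=
  ∃ A : Set ℂ, A.Finite ∧ (∀ a ∈ A, AlgO s a) ∧ ∀ σ ∈ Fix s A, ∀ χ : ℤ_[ℓ], IsCh σ ℓ χ →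
    ∀ (k : Fin (2 * i) → Fin N) (f f' : ∀ a, H1 (J (k a)) ℓ) (F F' : Fin (2 * i) → H1 T ℓ),
      (∀ a, IsAct (γ (k a)) σ ℓ (f a) (f' a) ∧ IsPb (g (k a)) (f a) (F a) ∧
        IsPb (g (k a)) (f' a) (F' a)) → c F' = (χ : ℚ_[ℓ]) ^ i * c F

/-- `c` is a `ℚ_ℓ`-linear combination of classes of algebraic cycles. -/
def IsAl {T : AV} {ℓ : ℕ} [Fact ℓ.Prime] {d : ℕ} (c : HL T ℓ d) : Prop :=
  ∃ (n : ℕ) (x : Fin n → ℚ_[ℓ]) (C : Fin n → Hlg T d), (∀ k, AlgC T d (C k)) ∧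
    ∀ (a : Fin d → F1 T) (f : Fin d → H1 T ℓ),
      (∀ i (v : T.L), ∃ q : ℚ, ev (a i) v = q ∧ f i v = q) →
      ∃ q : Fin n → ℚ, (∀ k, itg (C k) a = q k) ∧ c f = ∑ k, x k * q k

/-- Some signature `(q, r - q)` satisfies `0 < q < r` (otherwise the new part is of CM type). -/
def Ndf {r : ℕ} (m : ℕ) (b : Fin (r + 1) → ℕ) : Prop :=
  ∃ u < m, u.Coprime m ∧
    0 < (Finset.univ.filter fun i : Fin r => m * i.1 + ∑ j, (u * b j) % m < m * r).card ∧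
    (Finset.univ.filter fun i : Fin r => m * i.1 + ∑ j, (u * b j) % m < m * r).card < r

/-- `T` is isogenous to the new part of the Jacobian of a cyclic covering of degree `m ≥ 3` of the
projective line with branch set in `{∞, s_1, …, s_p}`, `r + 2 ≥ 5` branch points; it is balanced (then `r` is
even, there are at least six branch points), or it is not of CM type and `d < r`; `γ` is the map of the
curve, and `T`, `γ` are defined over the algebraic closure of `ℚ(s)`. -/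
def IsBn {p : ℕ} (s : Fin p → ℂ) (d : ℕ) {T : AV} (γ : Cur T) : Prop :=
  ∃ (m : ℕ) (Z : T.V → T.V) (r : ℕ) (i : Fin (r + 1) → Fin p) (k : Option (Fin p))
    (b : Fin (r + 1) → ℕ), Function.Injective i ∧ (∀ l, k = some l → ∀ j, i j < l) ∧
    3 ≤ m ∧ 3 ≤ r ∧ IsCv m (pt s i k) b ∧ (Bal m b ∨ Ndf m b ∧ d < r) ∧ IsCy T m Z ∧
    2 * Module.finrank ℂ T.V = r * m.totient ∧ IsMp T m Z (pt s i k) b γ ∧
    ∃ A : Set ℂ, A.Finite ∧ (∀ a ∈ A, AlgO s a) ∧ IsMod s γ A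

/-- **THE THEOREM**: the Tate conjecture in degree `2 i` for abelian varieties isogenous to products of
new parts of cyclic coverings of the line with very general branch points, which are balanced or of
rank `r > 2 i`. -/
def Main : Prop :=
  ∃ M : (p : ℕ) → Set (Fin p → ℂ), (∀ p, IsMeagre (M p)) ∧
  ∀ (p : ℕ) (s : Fin p → ℂ), s ∉ M p →
  ∀ (T : AV) (N : ℕ) (J : Fin N → AV) (γ : ∀ n, Cur (J n)) (g : ∀ n, T.V → (J n).V) (i : ℕ),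
    (∀ n, IsBn s (2 * i) (γ n)) → IsPr g →
    ∀ (ℓ : ℕ) [Fact ℓ.Prime] (c : HL T ℓ (2 * i)), IsTate s γ g ℓ i c → IsAl c

end TATE
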